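import Pool.Agent.X90.DD.Dist

/-!
# Counting words
-/

set_option autoImplicit false

namespace Pool.Agent.X90.DE

open Finset
open Pool.Agent.X90.DB (Ad)

/-- the words with positive entries and sum `m` -/
def cp (m : ℕ) : Finset (List ℕ) := univ.image fun c : Composition m => c.blocks

lemma mem_cp {m : ℕ} {r : List ℕ} : r ∈ cp m ↔ (∀ t ∈ r, 1 ≤ t) ∧ r.sum = m := by
  rw [cp, mem_image]
  constructor
  · rintro ⟨c, -, rfl⟩
    exact ⟨fun t ht => c.blocks_pos ht, c.blocks_sum⟩
  · rintro ⟨h1, h2⟩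
    exact ⟨⟨r, fun {t} ht => h1 t ht, h2⟩, mem_univ _, rfl⟩

lemma card_cp (m : ℕ) : (cp m).card = 2 ^ (m - 1) := by
  rw [cp, card_image_of_injective _ fun c c' h => Composition.ext h, card_univ, composition_card]

/-- the words with positive entries and sum at most `m` -/
def rs (m : ℕ) : Finset (List ℕ) := (range (m + 1)).biUnion cp

lemma mem_rs {m : ℕ} {r : List ℕ} : r ∈ rs m ↔ (∀ t ∈ r, 1 ≤ t) ∧ r.sum ≤ m := by
  rw [rs, mem_biUnion]
  constructor
  · rintro ⟨j, hj, hr⟩
    rw [mem_range] at hj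
    rw [mem_cp] at hr
    exact ⟨hr.1, by omega⟩
  · rintro ⟨h1, h2⟩
    exact ⟨r.sum, mem_range.2 (by omega), mem_cp.2 ⟨h1, rfl⟩⟩

lemma card_rs (m : ℕ) : (rs m).card = 2 ^ m := by
  rw [rs, card_biUnion]
  · induction m with
    | zero => rw [sum_range_one, card_cp]
    | succ m ih =>
      rw [sum_range_succ, ih, card_cp, Nat.add_sub_cancel, pow_succ]
      omega
  · intro i _ j _ hij
    simp only [Function.onFun]
    rw [disjoint_left]
    intro r h1 h2
    rw [mem_cp] at h1 h2
    exact hij (h1.2.symm.trans h2.2)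

/-- the admissible words of weight `n` -/
noncomputable def ad (n : ℕ) : Finset (List ℕ) := by
  classical
  exact (cp n).filter fun q => q = [] ∨ Ad q

lemma mem_ad {n : ℕ} {q : List ℕ} : q ∈ ad n ↔ (q = [] ∨ Ad q) ∧ q.sum = n := by
  classical
  have e : ad n = (cp n).filter fun q => q = [] ∨ Ad q := by
    rw [ad]
  rw [e, mem_filter, mem_cp]
  constructor
  · rintro ⟨⟨-, h1⟩, h2⟩
    exact ⟨h2, h1⟩
  · rintro ⟨h1, h2⟩
    refine ⟨⟨?_, h2⟩, h1⟩
    rcases h1 with rfl | h1
    · simp
    · exact h1.pos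

/-- the number of admissible words of weight `n` -/
def na : ℕ → ℕ
  | 0 => 1
  | 1 => 0
  | n + 2 => 2 ^ n

lemma card_ad (n : ℕ) : (ad n).card = na n := by
  classical
  have hsplit : ∀ m, cp (m + 1) = ad (m + 1) ∪ (cp m).image (List.cons 1) := by
    intro m
    ext r
    rw [mem_union, mem_ad, mem_cp, mem_image]
    constructor
    · rintro ⟨h1, h2⟩
      cases r with
      | nil => simp at h2
      | cons a r =>
        rw [List.sum_cons] at h2
        have ha := h1 a List.mem_cons_self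
        by_cases h3 : a = 1
        · right
          exact ⟨r, mem_cp.2 ⟨fun t ht => h1 t (List.mem_cons_of_mem _ ht), by omega⟩, by rw [h3]⟩
        · left
          exact ⟨Or.inr ⟨by omega, fun t ht => h1 t (List.mem_cons_of_mem _ ht)⟩,
            by rw [List.sum_cons]; omega⟩
    · rintro (⟨h1, h2⟩ | ⟨r', h1, rfl⟩)
      · refine ⟨?_, h2⟩
        rcases h1 with rfl | h1
        · simp
        · exact h1.pos
      · rw [mem_cp] at h1
        refine ⟨fun t ht => ?_, by rw [List.sum_cons]; omega⟩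
        rcases List.mem_cons.1 ht with rfl | ht
        · exact le_rfl
        · exact h1.1 t ht
  have hdisj : ∀ m, Disjoint (ad (m + 1)) ((cp m).image (List.cons 1)) := by
    intro m
    rw [disjoint_left]
    intro r h1 h2
    rw [mem_ad] at h1
    rw [mem_image] at h2
    obtain ⟨r', -, rfl⟩ := h2
    rcases h1.1 with h | h
    · exact List.cons_ne_nil _ _ h
    · exact absurd h.1 (by norm_num)
  have hcard : ∀ m, 2 ^ m = (ad (m + 1)).card + 2 ^ (m - 1) := by
    intro m
    have h1 := congrArg Finset.card (hsplit m)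
    rw [card_union_of_disjoint (hdisj m), card_cp, Nat.add_sub_cancel,
      card_image_of_injective _ (List.cons_injective), card_cp] at h1
    exact h1
  match n with
  | 0 =>
    have h1 : ad 0 = {[]} := by
      ext q
      rw [mem_ad, mem_singleton]
      constructor
      · rintro ⟨h1 | h1, h2⟩
        · exact h1
        · have := Pool.Agent.X90.DD.two_le_sum h1
          omega
      · rintro rfl
        exact ⟨Or.inl rfl, rfl⟩
    rw [h1]
    rfl
  | 1 =>
    have := hcard 0
    simp only [pow_zero, zero_tsub] at this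
    show _ = 0
    have h2 : (ad (0 + 1)).card = (ad 1).card := rfl
    omega
  | n + 2 =>
    have h1 := hcard (n + 1)
    rw [Nat.add_sub_cancel, pow_succ] at h1
    show _ = 2 ^ n
    have h2 : (ad (n + 1 + 1)).card = (ad (n + 2)).card := rfl
    omega

/-- the pairs of an admissible word and a word, of total weight at most `W` -/
noncomputable def IF (W : ℕ) : Finset (List ℕ × List ℕ) :=
  (range (W + 1)).biUnion fun n => ad n ×ˢ rs (W - n)

lemma mem_IF {W : ℕ} {i : List ℕ × List ℕ} : i ∈ IF W ↔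
    (i.1 = [] ∨ Ad i.1) ∧ (∀ t ∈ i.2, 1 ≤ t) ∧ i.1.sum + i.2.sum ≤ W := by
  rw [IF, mem_biUnion]
  constructor
  · rintro ⟨n, hn, h⟩
    rw [mem_range] at hn
    rw [mem_product, mem_ad, mem_rs] at h
    exact ⟨h.1.1, h.2.1, by omega⟩
  · rintro ⟨h1, h2, h3⟩
    exact ⟨i.1.sum, mem_range.2 (by omega), mem_product.2 ⟨mem_ad.2 ⟨h1, rfl⟩,
      mem_rs.2 ⟨h2, by omega⟩⟩⟩

lemma card_IF (W : ℕ) : (IF W).card = ∑ n ∈ range (W + 1), 2 ^ (W - n) * na n := by
  rw [IF, card_biUnion]
  · refine sum_congr rfl fun n _ => ?_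
    rw [card_product, card_ad, card_rs, mul_comm]
  · intro i _ j _ hij
    simp only [Function.onFun]
    rw [disjoint_left]
    intro r h1 h2
    rw [mem_product, mem_ad] at h1 h2
    exact hij (h1.1.2.symm.trans h2.1.2)

/-- the pairs of a number and a word, of total weight at most `W` -/
def XF (W : ℕ) : Finset (ℕ × List ℕ) :=
  (range (W + 1)).biUnion fun n => {n} ×ˢ rs (W - n)

lemma mem_XF {W : ℕ} {x : ℕ × List ℕ} : x ∈ XF W ↔ (∀ t ∈ x.2, 1 ≤ t) ∧ x.1 + x.2.sum ≤ W := by
  rw [XF, mem_biUnion]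
  constructor
  · rintro ⟨n, hn, h⟩
    rw [mem_range] at hn
    rw [mem_product, mem_singleton, mem_rs] at h
    exact ⟨h.2.1, by omega⟩
  · rintro ⟨h2, h3⟩
    exact ⟨x.1, mem_range.2 (by omega), mem_product.2 ⟨mem_singleton.2 rfl,
      mem_rs.2 ⟨h2, by omega⟩⟩⟩

lemma sum_XF (W : ℕ) (f : ℕ → ℕ) : ∑ x ∈ XF W, f x.1 = ∑ n ∈ range (W + 1), 2 ^ (W - n) * f n := by
  rw [XF, sum_biUnion]
  · refine sum_congr rfl fun n _ => ?_
    rw [sum_product, sum_singleton]
    simp only [sum_const, card_rs, smul_eq_mul]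
  · intro i _ j _ hij
    simp only [Function.onFun]
    rw [disjoint_left]
    intro r h1 h2
    rw [mem_product, mem_singleton] at h1 h2
    exact hij (h1.1.symm.trans h2.1)

end Pool.Agent.X90.DE
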