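import Pool.Agent.X90.DE.Dist3
import Pool.Agent.H340R2.LW

/-!
# The values `ζ(2, …, 2)`
-/

set_option autoImplicit false

namespace Pool.Agent.X90.DE

open Finset
open Pool.Agent.Y760.ZG (mz)
open Pool.Agent.Y760.ZF (sti)
open Pool.Agent.X90.DB (Ad)
open Pool.Agent.X90.DC (mz_stuffle)
open Pool.Agent.X90.DD

/-- the sum over all words which arise from `2, …, 2` by inserting one letter -/
def In (n : ℕ) : (List ℕ → ℝ) → ℕ → ℝ := fun F a =>
  match n with
  | 0 => F [a]
  | n + 1 => F (a :: List.replicate (n + 1) 2) + In n (fun l => F (2 :: l)) a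

lemma sum_sti (n : ℕ) : ∀ (F : List ℕ → ℝ) (a : ℕ),
    ((sti [a] (List.replicate (n + 1) 2)).map F).sum = In (n + 1) F a + In n F (a + 2) := by
  induction n with
  | zero =>
    intro F a
    simp [sti, In]
    ring
  | succ n ih =>
    intro F a
    rw [List.replicate_succ, sti, List.map_append, List.map_append, List.sum_append,
      List.sum_append, List.map_map, List.map_map, List.map_map]
    have h1 := ih (fun l => F (2 :: l)) a
    have e : (F ∘ fun x : List ℕ => 2 :: x) = fun l => F (2 :: l) := rfl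
    rw [e, h1]
    have e1 : ((sti [] (2 :: List.replicate (n + 1) 2)).map (F ∘ fun x => a :: x)).sum =
        F (a :: List.replicate (n + 2) 2) := by
      rw [sti]
      simp [List.replicate_succ]
    have e2 : ((sti [] (List.replicate (n + 1) 2)).map (F ∘ fun x => (a + 2) :: x)).sum =
        F ((a + 2) :: List.replicate (n + 1) 2) := by
      rw [sti]
      simp
    rw [e1, e2]
    have e3 : In (n + 1 + 1) F a = F (a :: List.replicate (n + 2) 2) +
        In (n + 1) (fun l => F (2 :: l)) a := rfl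
    have e4 : In (n + 1) F (a + 2) = F ((a + 2) :: List.replicate (n + 1) 2) +
        In n (fun l => F (2 :: l)) (a + 2) := rfl
    rw [e3, e4]
    ring

lemma In_two (n : ℕ) : ∀ F : List ℕ → ℝ, In n F 2 = (n + 1) * F (List.replicate (n + 1) 2) := by
  induction n with
  | zero =>
    intro F
    simp [In]
  | succ n ih =>
    intro F
    have e3 : In (n + 1) F 2 = F (2 :: List.replicate (n + 1) 2) +
        In n (fun l => F (2 :: l)) 2 := rfl
    rw [e3, ih]
    have e4 : (2 :: List.replicate (n + 1) 2 : List ℕ) = List.replicate (n + 2) 2 := rfl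
    rw [e4]
    push_cast
    ring

lemma mz_even {i : ℕ} (hi : 1 ≤ i) : ∃ q : ℚ, mz [2 * i] = q * Real.pi ^ (2 * i) := by
  have h1 := hasSum_zeta_nat (k := i) (by omega)
  have h2 := (hasSum_nat_add_iff' 1).2 h1
  rw [mz_one]
  have h3 : ∑' n : ℕ, 1 / ((n + 1 : ℕ) : ℝ) ^ (2 * i) = _ := h2.tsum_eq
  rw [h3]
  simp only [sum_range_one, Nat.cast_zero]
  rw [zero_pow (by omega), div_zero, sub_zero]
  exact ⟨(-1) ^ (i + 1) * 2 ^ (2 * i - 1) * bernoulli (2 * i) / (2 * i).factorial, by
    push_cast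
    ring⟩

lemma ad_replicate (n : ℕ) : Ad (List.replicate (n + 1) 2) := by
  rw [List.replicate_succ]
  exact ⟨le_rfl, fun t ht => by rw [List.eq_of_mem_replicate ht]; norm_num⟩

lemma twos_aux (n : ℕ) : (∃ q : ℚ, mz (List.replicate n 2) = q * Real.pi ^ (2 * n)) ∧
    ∀ i, 1 ≤ i → ∃ q : ℚ, In n mz (2 * i) = q * Real.pi ^ (2 * n + 2 * i) := by
  induction n with
  | zero =>
    refine ⟨⟨1, by simp [mz]⟩, fun i hi => ?_⟩
    obtain ⟨q, hq⟩ := mz_even hi
    exact ⟨q, by rw [In, hq, mul_zero, zero_add]⟩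
  | succ n ih =>
    have h1 : ∃ q : ℚ, mz (List.replicate (n + 1) 2) = q * Real.pi ^ (2 * (n + 1)) := by
      obtain ⟨q, hq⟩ := ih.2 1 le_rfl
      rw [mul_one, In_two] at hq
      refine ⟨q / (n + 1), ?_⟩
      have hn : ((n : ℝ) + 1) ≠ 0 := by positivity
      have e : 2 * (n + 1) = 2 * n + 2 := by ring
      rw [e]
      push_cast
      field_simp
      linarith
    refine ⟨h1, fun i hi => ?_⟩
    obtain ⟨q1, hq1⟩ := h1
    obtain ⟨q2, hq2⟩ := ih.2 (i + 1) (by omega)
    obtain ⟨q3, hq3⟩ := mz_even hi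
    have h2 := sum_sti n mz (2 * i)
    rw [← mz_stuffle [2 * i] (List.replicate (n + 1) 2) ⟨by omega, by simp⟩ (ad_replicate n)] at h2
    have e : 2 * i + 2 = 2 * (i + 1) := by ring
    rw [e, hq2, hq1, hq3] at h2
    refine ⟨q3 * q1 - q2, ?_⟩
    have h3 : In (n + 1) mz (2 * i) = (q3 : ℝ) * Real.pi ^ (2 * i) * (q1 * Real.pi ^ (2 * (n + 1))) -
        q2 * Real.pi ^ (2 * n + 2 * (i + 1)) := by linarith
    rw [h3]
    push_cast
    ring

/-- `ζ(2, …, 2)` is a rational multiple of a power of `π` -/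
theorem twos (n : ℕ) : ∃ q : ℚ, q ≠ 0 ∧ mz (List.replicate n 2) = q * Real.pi ^ (2 * n) := by
  obtain ⟨q, hq⟩ := (twos_aux n).1
  refine ⟨q, ?_, hq⟩
  rintro rfl
  rw [Rat.cast_zero, zero_mul] at hq
  refine mz_ne ?_ hq
  cases n with
  | zero => exact Or.inl rfl
  | succ n => exact Or.inr (ad_replicate n)

/-- the values `ζ(2, …, 2)` are linearly independent -/
theorem twos_indep : LinearIndependent ℚ fun q : {q : List ℕ // ∀ t ∈ q, t = 2} => mz q.1 := by
  classical
  choose c hc0 hc using twos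
  rw [linearIndependent_iff']
  intro S g hg q0 hq0
  have hrep : ∀ q : {q : List ℕ // ∀ t ∈ q, t = 2}, q.1 = List.replicate q.1.length 2 :=
    fun q => List.eq_replicate_iff.2 ⟨rfl, q.2⟩
  have hval : ∀ q : {q : List ℕ // ∀ t ∈ q, t = 2}, mz q.1 = c q.1.length * Real.pi ^ (2 * q.1.length) := by
    intro q
    conv_lhs => rw [hrep q]
    exact hc _
  set P : Polynomial ℚ := ∑ q ∈ S, Polynomial.C (g q * c q.1.length) *
    Polynomial.X ^ (2 * q.1.length) with hP
  have h1 : Polynomial.aeval Real.pi P = 0 := by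
    rw [hP, map_sum, ← hg]
    refine sum_congr rfl fun q _ => ?_
    rw [map_mul, Polynomial.aeval_C, map_pow, Polynomial.aeval_X, Rat.smul_def, hval q]
    simp only [eq_ratCast, map_mul]
    push_cast
    ring
  have h2 : P = 0 := by
    by_contra hne
    exact Pool.Agent.H340R2.LW.transcendental_pi ⟨P, hne, h1⟩
  have h3 : P.coeff (2 * q0.1.length) = g q0 * c q0.1.length := by
    rw [hP, Polynomial.finsetSum_coeff, sum_eq_single q0]
    · rw [Polynomial.coeff_C_mul, Polynomial.coeff_X_pow, if_pos rfl, mul_one]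
    · intro q _ hne
      rw [Polynomial.coeff_C_mul, Polynomial.coeff_X_pow, if_neg, mul_zero]
      intro h
      apply hne
      ext1
      rw [hrep q, hrep q0]
      congr 1
      omega
    · intro h
      exact absurd hq0 h
  rw [h2, Polynomial.coeff_zero] at h3
  exact (mul_eq_zero.1 h3.symm).resolve_right (hc0 _)

end Pool.Agent.X90.DE
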