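import Pool.Agent.X90.DE.Cmp

/-!
# Words with one large letter
-/

set_option autoImplicit false

namespace Pool.Agent.X90.DE

open Finset
open Pool.Agent.Y760.ZG (mz)
open Pool.Agent.Y760.ZF (sti)
open Pool.Agent.X90.DB (Ad ix ex ex_nil ex_ne)
open Pool.Agent.X90.DC
open Pool.Agent.X90.DD

/-- the pattern with one letter that depends on the variable -/
def pt (W : ℕ) (i : List ℕ × List ℕ) : List (Lr 1) :=
  fp i.1 ++ (W - i.1.sum - i.2.sum, fun _ => 1) :: fp i.2

/-- the word with one large letter, without fixed part -/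
def gw (W s n : ℕ) (r : List ℕ) : List ℕ := (W - n - r.sum + s) :: r

/-- the word with one large letter -/
def wd (W s : ℕ) (i : List ℕ × List ℕ) : List ℕ := i.1 ++ gw W s i.1.sum i.2

lemma ix_letter (s : Fin 1 → ℕ) (b : ℕ) (r : List ℕ) :
    ix s (((b, fun _ => 1) : Lr 1) :: fp r) = (b + s 0) :: r := by
  rw [ix_cons, ix_fp]
  simp

lemma ix_pt (W : ℕ) (s : Fin 1 → ℕ) (i : List ℕ × List ℕ) : ix s (pt W i) = wd W (s 0) i := by
  rw [pt, ix_append, ix_fp, ix_letter]
  rfl

lemma fpx_fp {k : ℕ} (p : List ℕ) (u : Lr k) (hu : u.2 ≠ 0) (v : List (Lr k)) :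
    fpx (fp p ++ u :: v) = p := by
  induction p with
  | nil =>
    show fpx (u :: v) = []
    rw [fpx, if_neg hu]
  | cons b p ih =>
    show fpx ((b, 0) :: (fp p ++ u :: v)) = _
    rw [fpx, if_pos rfl, ih]

lemma one_ne : (fun _ : Fin 1 => 1 : Fin 1 → ℕ) ≠ 0 := fun h => by
  have := congrFun h 0
  simp at this

lemma ge_pt {W : ℕ} {i : List ℕ × List ℕ} (h1 : i.1 = [] ∨ Ad i.1) (h2 : ∀ t ∈ i.2, 1 ≤ t) :
    Ge (pt W i) := by
  obtain ⟨q, r⟩ := i
  simp only [pt] at *
  constructor
  · intro u hu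
    cases q with
    | nil =>
      have : u = (W - ([] : List ℕ).sum - r.sum, fun _ => 1) := by
        simp only [fp, List.map_nil, List.nil_append, List.head?_cons, Option.mem_some_iff] at hu
        exact hu.symm
      rw [this]
      exact Or.inl one_ne
    | cons b q =>
      have : u = (b, 0) := by
        simp only [fp, List.map_cons, List.cons_append, List.head?_cons,
          Option.mem_some_iff] at hu
        exact hu.symm
      rw [this]
      exact Or.inr (h1.resolve_left (List.cons_ne_nil _ _)).1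
  · intro u hu
    rw [List.mem_append, List.mem_cons, fp, fp, List.mem_map, List.mem_map] at hu
    rcases hu with ⟨b, hb, rfl⟩ | rfl | ⟨b, hb, rfl⟩
    · right
      rcases h1 with rfl | h1
      · exact absurd hb List.not_mem_nil
      · exact h1.pos b hb
    · exact Or.inl one_ne
    · exact Or.inr (h2 b hb)

/-- good patterns of the right weight -/
lemma struct (W A : ℕ) (v : List (Lr 1)) (hv : Gd v)
    (h : ∀ s : Fin 1 → ℕ, A + (ix s v).sum = s 0 + W) :
    ∃ r : List ℕ, v = (W - A - r.sum, fun _ => 1) :: fp r ∧ (∀ t ∈ r, 1 ≤ t) ∧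
      A + r.sum ≤ W := by
  have hsum : ∀ (v : List (Lr 1)) (s : Fin 1 → ℕ), (ix s v).sum =
      (v.map fun u => u.1).sum + (v.map fun u => u.2 0).sum * s 0 := by
    intro v s
    induction v with
    | nil => simp [ix]
    | cons u v ih =>
      rw [ix_cons, List.sum_cons, ih, List.map_cons, List.sum_cons, List.map_cons, List.sum_cons]
      simp
      ring
  have h0 := h fun _ => 0
  have h1 := h fun _ => 1
  rw [hsum] at h0 h1
  simp only [mul_zero, add_zero, zero_add, mul_one] at h0 h1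
  cases v with
  | nil =>
    simp at h1
    simp at h0
    omega
  | cons u v =>
    obtain ⟨b, c⟩ := u
    rw [List.map_cons, List.sum_cons, List.map_cons, List.sum_cons] at h1
    rw [List.map_cons, List.sum_cons] at h0
    simp only at h0 h1
    have hc : c 0 ≠ 0 := by
      intro h2
      refine hv.1 (b, c) (by simp) ?_
      funext j
      rw [Fin.fin_one_eq_zero j]
      exact h2
    have hc1 : c = fun _ => 1 := by
      funext j
      rw [Fin.fin_one_eq_zero j]
      omega
    have htl : (v.map fun u => u.2 0).sum = 0 := by omega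
    have htl' : v = fp (v.map fun u => u.1) := by
      rw [fp, List.map_map]
      conv_lhs => rw [← List.map_id v]
      refine List.map_congr_left fun u hu => ?_
      have h3 : u.2 0 = 0 := by
        rw [List.sum_eq_zero_iff] at htl
        exact htl _ (List.mem_map_of_mem hu)
      have h4 : u.2 = 0 := by
        funext j
        rw [Fin.fin_one_eq_zero j]
        exact h3
      simp only [id, Function.comp]
      rw [← h4]
    refine ⟨v.map fun u => u.1, ?_, ?_, by omega⟩
    · rw [← htl', hc1]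
      congr 2
      omega
    · intro t ht
      rw [List.mem_map] at ht
      obtain ⟨u, hu, rfl⟩ := ht
      refine (hv.2 u (List.mem_cons_of_mem _ hu)).resolve_left fun h3 => h3 ?_
      funext j
      rw [Fin.fin_one_eq_zero j]
      rw [List.sum_eq_zero_iff] at htl
      exact htl _ (List.mem_map_of_mem hu)

/-- **the relations between the values with one large argument** -/
theorem core (W κ : ℕ) : ∃ (m : ℕ) (ii jj : Fin m → ↥(IF W)) (cc : Fin m → ℤ),
    (∀ (A : Type) [CommRing A] (Z : List ℕ → A),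
      (∀ u v, Ad u → Ad v → Z u * Z v = ((sti u v).map Z).sum) →
      ∀ s : ℕ, 2 ≤ s → ∀ c : ↥(IF W) → ℤ, ∑ i, (c i : A) * ex Z (wd W s i.1) =
        ∑ j, ((c (ii j) * cc j : ℤ) : A) *
          (ex Z (jj j).1.1 * ex Z (gw W s (jj j).1.1.sum (jj j).1.2))) ∧
    ∃ K : ℕ, ∀ C : ℝ, ∃ N0 : ℕ, ∀ N : ℕ, N0 ≤ N → ∀ B : Finset ℕ,
      (∀ s ∈ B, (N ≤ s ∧ s ≤ κ * N) ∧ ∃ c : ↥(IF W) → ℤ, (∀ i, |(c i : ℝ)| ≤ C ^ N) ∧
        ∑ i, (c i : ℝ) * mz (wd W s i.1) = 0 ∧
        ∃ (n : ℕ) (r : List ℕ), ∑ j with (jj j).1.1.sum = n ∧ (jj j).1.2 = r,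
          ((c (ii j) * cc j : ℤ) : ℝ) * mz (jj j).1.1 ≠ 0) → B.card ≤ K := by
  classical
  set e := (IF W).equivFin with he
  have hI : ∀ i : ↥(IF W), (i.1.1 = [] ∨ Ad i.1.1) ∧ (∀ t ∈ i.1.2, 1 ≤ t) ∧
      i.1.1.sum + i.1.2.sum ≤ W := fun i => mem_IF.1 i.2
  obtain ⟨m, idx, cc, p, v, hpv, hexp, K, hK⟩ := lin 1 (IF W).card
    (fun a => pt W (e.symm a).1) (fun a => ge_pt (hI _).1 (hI _).2.1) κ
  have hsumw : ∀ (s : Fin 1 → ℕ) (a : Fin (IF W).card),
      (ix s (pt W (e.symm a).1)).sum = s 0 + W := by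
    intro s a
    rw [ix_pt, wd, gw, List.sum_append, List.sum_cons]
    have := (hI (e.symm a)).2.2
    omega
  have h1 : ∀ j, ∃ r : List ℕ, v j = (W - (p j).sum - r.sum, fun _ => 1) :: fp r ∧
      (∀ t ∈ r, 1 ≤ t) ∧ (p j).sum + r.sum ≤ W := fun j =>
    struct W (p j).sum (v j) (hpv j).2.2.1 fun s => by
      rw [(hpv j).2.2.2 s, hsumw]
  choose r hr1 hr2 hr3 using h1
  have hixv : ∀ (s : Fin 1 → ℕ) j, ix s (v j) = gw W (s 0) (p j).sum (r j) := by
    intro s j
    rw [hr1 j, ix_letter]
    rfl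
  refine ⟨m, fun j => e.symm (idx j), fun j => ⟨(p j, r j), mem_IF.2 ⟨(hpv j).1, hr2 j, hr3 j⟩⟩,
    cc, ?_, K, ?_⟩
  · intro A _ Z hZ s hs c
    have h2 := hexp A Z hZ (fun _ => s) (fun _ => hs) fun a => c (e.symm a)
    simp only [ix_pt, hixv] at h2
    rw [← e.symm.sum_comp]
    exact h2
  · intro C
    obtain ⟨N0, hN0⟩ := hK C
    refine ⟨N0 + 2, fun N hN B hB => ?_⟩
    have h2 := hN0 N (by omega) (B.map ⟨fun (s : ℕ) (_ : Fin 1) => s, fun s s' h => congrFun h 0⟩) (by
      intro s' hs'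
      rw [mem_map] at hs'
      obtain ⟨s, hs, rfl⟩ := hs'
      obtain ⟨h3, c, h4, h5, n, r0, h6⟩ := hB s hs
      refine ⟨fun _ => h3, fun a => c (e.symm a), fun a => h4 _, ?_, gw W s n r0, ?_⟩
      · rw [← h5, ← e.symm.sum_comp]
        exact sum_congr rfl fun a _ => by rw [ix_pt]; rfl
      · have h7 : (univ.filter fun j => ix (fun _ : Fin 1 => s) (v j) = gw W s n r0) =
            univ.filter fun j => (p j).sum = n ∧ r j = r0 := by
          obtain ⟨j0, hj0⟩ : ∃ j, (p j).sum = n ∧ r j = r0 := by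
            by_contra hcon
            push Not at hcon
            apply h6
            rw [filter_false_of_mem, sum_empty]
            rintro j - ⟨g1, g2⟩
            exact hcon j g1 g2
          ext j
          rw [mem_filter, mem_filter, hixv, gw, gw, List.cons.injEq]
          have g1 := hr3 j
          have g2 := hr3 j0
          rw [hj0.2] at g2
          constructor
          · rintro ⟨g4, g3, g5⟩
            rw [g5] at g3 g1
            exact ⟨mem_univ _, by omega, g5⟩
          · rintro ⟨g4, g3, g5⟩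
            rw [g3, g5]
            exact ⟨mem_univ _, rfl, rfl⟩
        show ∑ j with ix (fun _ : Fin 1 => s) (v j) = gw W s n r0, _ ≠ 0
        rw [h7]
        exact h6)
    rwa [card_map, Nat.sub_self, pow_zero, mul_one] at h2

end Pool.Agent.X90.DE
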