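import Pool.Agent.X90.DD.Dist

/-!
# Different patterns of any weights
-/

set_option autoImplicit false

namespace Pool.Agent.X90.DD

open Finset Filter Topology
open Pool.Agent.Y760.ZG (mz hr hr_nil hr_cons hr_nonneg)
open Pool.Agent.Y760.ZF (sti)
open Pool.Agent.X90.DB (Ad ix ex ex_nil ex_ne card_plane)
open Pool.Agent.X90.DC

/-- **different patterns are independent for almost all tuples** -/
theorem distA (k r : ℕ) (w : Fin r → List (Lr k)) (hw : ∀ i, Ge (w i)) (hinj : Function.Injective w)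
    (hPi : ∀ S : Finset (List ℕ), (∀ q ∈ S, (q = [] ∨ Ad q) ∧ ∃ i, q <+: fpx (w i)) →
      ∀ a : List ℕ → ℤ, ∑ q ∈ S, (a q : ℝ) * mz q = 0 → ∀ q ∈ S, a q = 0) (κ : ℕ) :
    ∃ K : ℕ, ∀ C : ℝ, ∃ N0 : ℕ, ∀ N : ℕ, N0 ≤ N → ∀ B : Finset (Fin k → ℕ),
      (∀ s ∈ B, (∀ j, N ≤ s j ∧ s j ≤ κ * N) ∧
        ∃ c : Fin r → ℤ, c ≠ 0 ∧ (∀ i, |(c i : ℝ)| ≤ C ^ N) ∧
          ∑ i, (c i : ℝ) * mz (ix s (w i)) = 0) →
      B.card ≤ K * N ^ (k - 1) := by
  classical
  obtain ⟨m, idx, cc, p, v, hpv, hexp, K, hK⟩ := lin k r w hw κ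
  refine ⟨K + r * r * κ ^ (k - 1), fun C => ?_⟩
  obtain ⟨N0, hN0⟩ := hK C
  refine ⟨N0 + 2, fun N hN B hB => ?_⟩
  -- tuples with equal words
  set B2 : Finset (Fin k → ℕ) := B.filter fun s => ¬ Function.Injective fun i => ix s (w i) with hB2
  have hcard2 : B2.card ≤ r * r * κ ^ (k - 1) * N ^ (k - 1) := by
    have h1 : B2 ⊆ (univ : Finset (Fin r × Fin r)).biUnion fun q =>
        if q.1 = q.2 then ∅ else B.filter fun s => ix s (w q.1) = ix s (w q.2) := by
      intro s hs
      rw [hB2, mem_filter, Function.Injective] at hs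
      obtain ⟨hsB, hs⟩ := hs
      push Not at hs
      obtain ⟨i, j, hij, hne⟩ := hs
      rw [mem_biUnion]
      refine ⟨(i, j), mem_univ _, ?_⟩
      rw [if_neg hne, mem_filter]
      exact ⟨hsB, hij⟩
    refine (card_le_card h1).trans (card_biUnion_le.trans ?_)
    have h2 : ∀ q ∈ (univ : Finset (Fin r × Fin r)), (if q.1 = q.2 then
        (∅ : Finset (Fin k → ℕ)) else B.filter fun s => ix s (w q.1) = ix s (w q.2)).card ≤
        κ ^ (k - 1) * N ^ (k - 1) := by
      intro q _
      split_ifs with h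
      · simp
      · refine (eq_plane (κ := κ) (N := N) (fun h0 => h (hinj h0)) _ fun s hs => ?_).trans ?_
        · rw [mem_filter] at hs
          exact ⟨mem_bx.2 (hB s hs.1).1, hs.2⟩
        · rw [← mul_pow]
          exact Nat.pow_le_pow_left (by omega) _
    refine (sum_le_sum h2).trans ?_
    rw [sum_const, card_univ, Fintype.card_prod, Fintype.card_fin, smul_eq_mul, mul_assoc,
      mul_assoc, mul_assoc]
  rw [← card_filter_add_card_filter_not (s := B) (fun s => Function.Injective fun i => ix s (w i)),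
    add_mul]
  refine Nat.add_le_add (hN0 N (by omega) _ fun s hs => ?_) hcard2
  rw [mem_filter] at hs
  obtain ⟨hsB, hsi⟩ := hs
  obtain ⟨hs1, c, hc, hcC, hc0⟩ := hB s hsB
  have hs2 : ∀ j, 2 ≤ s j := fun j => le_trans (by omega) (hs1 j).1
  refine ⟨hs1, c, hcC, hc0, ?_⟩
  by_contra hcon
  push Not at hcon
  -- all the coefficients vanish
  have hzero : ∀ (u q : List ℕ), ∑ j with ix s (v j) = u ∧ p j = q, (c (idx j) * cc j) = 0 := by
    intro u q
    rcases (univ.filter fun j => ix s (v j) = u ∧ p j = q).eq_empty_or_nonempty with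
      he | ⟨j0, hj0⟩
    · rw [he, sum_empty]
    rw [mem_filter] at hj0
    have h1 := hPi ((univ.filter fun j => ix s (v j) = u).image p) (fun q' hq' => by
        rw [mem_image] at hq'
        obtain ⟨j, hj, rfl⟩ := hq'
        exact ⟨(hpv j).1, ⟨idx j, (hpv j).2.1⟩⟩) (fun q' => ∑ j with ix s (v j) = u ∧ p j = q', (c (idx j) * cc j)) (by
        have h2 := hcon u
        rw [← sum_fiberwise_of_maps_to (s := univ.filter fun j => ix s (v j) = u)
          (t := (univ.filter fun j => ix s (v j) = u).image p) (g := p)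
          (fun j hj => mem_image_of_mem _ hj)] at h2
        rw [← h2]
        refine sum_congr rfl fun q' _ => ?_
        rw [filter_filter]
        push_cast
        rw [sum_mul]
        refine sum_congr rfl fun j hj => ?_
        rw [mem_filter] at hj
        rw [hj.2.2])
    exact h1 q (mem_image.2 ⟨j0, mem_filter.2 ⟨mem_univ _, hj0.2.1⟩, hj0.2.2⟩)
  have hall : ∀ ts : List ℂ, ∑ i, (c i : ℂ) * Zt ts (ix s (w i)) = 0 := by
    intro ts
    have h1 := hexp ℂ (Zt ts) (fun u v _ _ => Zt_mul ts u v) s hs2 c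
    simp only [ex_Zt] at h1
    rw [h1]
    rw [← sum_fiberwise_of_maps_to (s := univ) (t := univ.image fun j => (ix s (v j), p j))
      (g := fun j => (ix s (v j), p j)) (fun j _ => mem_image_of_mem _ (mem_univ j))]
    refine sum_eq_zero fun uq _ => ?_
    have h2 : ∑ j with (ix s (v j), p j) = uq,
        ((c (idx j) * cc j : ℤ) : ℂ) * (Zt ts (p j) * Zt ts (ix s (v j))) =
        ∑ j with ix s (v j) = uq.1 ∧ p j = uq.2,
          ((c (idx j) * cc j : ℤ) : ℂ) * (Zt ts uq.2 * Zt ts uq.1) := by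
      refine sum_congr ?_ fun j hj => ?_
      · ext j
        rw [mem_filter, mem_filter, Prod.ext_iff]
      · rw [mem_filter] at hj
        rw [hj.2.1, hj.2.2]
    rw [h2, ← sum_mul]
    have h4 := hzero uq.1 uq.2
    have h5 : ∑ j with ix s (v j) = uq.1 ∧ p j = uq.2, ((c (idx j) * cc j : ℤ) : ℂ) = 0 := by
      exact_mod_cast h4
    rw [h5, zero_mul]
  apply hc
  by_contra hne
  obtain ⟨i0, hi0⟩ : ∃ i, c i ≠ 0 := by
    by_contra h
    push Not at h
    exact hne (funext h)
  obtain ⟨ℓ, hℓ⟩ : ∃ ℓ : ℕ, ∀ i, (ix s (w i)).length ≤ ℓ :=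
    ⟨∑ i, (ix s (w i)).length, fun i => single_le_sum (f := fun i => (ix s (w i)).length)
      (fun _ _ => Nat.zero_le _) (mem_univ i)⟩
  set d : List ℕ → ℤ := fun u => ∑ i with ix s (w i) = u, c i with hd
  have hdi : ∀ i, d (ix s (w i)) = c i := by
    intro i
    have h1 : (univ.filter fun i' => ix s (w i') = ix s (w i)) = {i} := by
      ext i'
      rw [mem_filter, mem_singleton]
      exact ⟨fun h => hsi h.2, fun h => ⟨mem_univ _, by rw [h]⟩⟩
    simp only [hd]
    rw [h1, sum_singleton]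
  obtain ⟨ts, hts⟩ := words_indep ℓ (univ.image fun i => ix s (w i)) d (fun x hx => by
      rw [mem_image] at hx
      obtain ⟨i, -, rfl⟩ := hx
      exact hℓ i) (fun x hx a ha => by
      rw [mem_image] at hx
      obtain ⟨i, -, rfl⟩ := hx
      exact ix_pos (fun j => le_trans (by norm_num) (hs2 j)) (hw i).2 a ha)
    ⟨ix s (w i0), mem_image_of_mem _ (mem_univ _), by rw [hdi]; exact hi0⟩
  apply hts
  rw [sum_image fun i _ j _ h => hsi h]
  simp only [hdi]
  exact hall ts

end Pool.Agent.X90.DD
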