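import Pool.Agent.X90.DE.Core

/-!
# The space of relations
-/

set_option autoImplicit false

namespace Pool.Agent.X90.DE

open Finset
open Pool.Agent.Y760.ZG (mz)
open Pool.Agent.Y760.ZF (sti)
open Pool.Agent.X90.DB (Ad ix ex ex_nil ex_ne)
open Pool.Agent.X90.DC
open Pool.Agent.X90.DD

/-- the coefficients of the expansion -/
def Ph {W m : ℕ} (ii jj : Fin m → ↥(IF W)) (cc : Fin m → ℤ) :
    (↥(IF W) → ℚ) →ₗ[ℚ] (↥(IF W) → ℚ) where
  toFun c i := ∑ j with jj j = i, c (ii j) * cc j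
  map_add' c d := by
    funext i
    simp only [Pi.add_apply, add_mul, sum_add_distrib]
  map_smul' a c := by
    funext i
    simp only [Pi.smul_apply, smul_eq_mul, RingHom.id_apply, mul_sum, mul_assoc]

lemma mz_mem {n : ℕ} {p : List ℕ} (hp : p = [] ∨ Ad p) (hn : p.sum = n) : mz p ∈ WS n :=
  Submodule.subset_span ⟨p, ⟨hp, hn⟩, rfl⟩

lemma WS_eq (n : ℕ) : WS n = Submodule.span ℚ ((ad n).image mz : Set ℝ) := by
  classical
  rw [WS, coe_image]
  congr 2
  ext p
  rw [mem_coe, mem_ad]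
  rfl

instance (n : ℕ) : Module.Finite ℚ (WS n) := by
  classical
  rw [WS_eq]
  exact Module.Finite.span_finset ℚ _

/-- the values of the coefficients -/
noncomputable def ev (W : ℕ) : (↥(IF W) → ℚ) →ₗ[ℚ] ((x : ↥(XF W)) → ↥(WS x.1.1)) where
  toFun g x := ⟨∑ i with i.1.1.sum = x.1.1 ∧ i.1.2 = x.1.2, g i • mz i.1.1,
    Submodule.sum_mem _ fun i hi => Submodule.smul_mem _ _
      (mz_mem (mem_IF.1 i.2).1 (mem_filter.1 hi).2.1)⟩
  map_add' c d := by
    funext x
    ext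
    simp only [Pi.add_apply, add_smul, sum_add_distrib, Submodule.coe_add]
  map_smul' a c := by
    funext x
    ext
    simp only [Pi.smul_apply, smul_eq_mul, RingHom.id_apply, smul_sum, mul_smul,
      SetLike.val_smul]

lemma ev_surj (W : ℕ) : Function.Surjective (ev W) := by
  classical
  intro z
  have h1 : ∀ x : ↥(XF W), ∃ l : List ℕ →₀ ℚ, l ∈ Finsupp.supported ℚ ℚ
      {p : List ℕ | (p = [] ∨ Ad p) ∧ p.sum = x.1.1} ∧
      Finsupp.linearCombination ℚ mz l = z x := by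
    intro x
    have h2 : (z x : ℝ) ∈ Submodule.span ℚ
      (mz '' {p | (p = [] ∨ Ad p) ∧ p.sum = x.1.1}) := (z x).2
    rw [Finsupp.mem_span_image_iff_linearCombination] at h2
    exact h2
  choose l hl1 hl2 using h1
  have hX : ∀ i : ↥(IF W), (i.1.1.sum, i.1.2) ∈ XF W := fun i =>
    mem_XF.2 ⟨(mem_IF.1 i.2).2.1, (mem_IF.1 i.2).2.2⟩
  refine ⟨fun i => l ⟨(i.1.1.sum, i.1.2), hX i⟩ i.1.1, ?_⟩
  funext x
  ext
  show ∑ i : ↥(IF W) with i.1.1.sum = x.1.1 ∧ i.1.2 = x.1.2,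
    l ⟨(i.1.1.sum, i.1.2), hX i⟩ i.1.1 • mz i.1.1 = z x
  rw [← hl2 x, Finsupp.linearCombination_apply, Finsupp.sum]
  symm
  refine sum_bij_ne_zero (fun p hp _ => ⟨(p, x.1.2), ?_⟩) ?_ ?_ ?_ ?_
  · have h2 := (Finsupp.mem_supported ℚ _).1 (hl1 x) hp
    have h3 := mem_XF.1 x.2
    exact mem_IF.2 ⟨h2.1, h3.1, by rw [h2.2]; exact h3.2⟩
  · intro p hp _
    have h2 := (Finsupp.mem_supported ℚ _).1 (hl1 x) hp
    exact mem_filter.2 ⟨mem_univ _, h2.2, rfl⟩
  · intro p hp _ p' hp' _ h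
    exact congrArg Prod.fst (congrArg Subtype.val h)
  · intro i hi hne
    rw [mem_filter] at hi
    have hx : (⟨(i.1.1.sum, i.1.2), hX i⟩ : ↥(XF W)) = x := by
      ext1
      exact Prod.ext hi.2.1 hi.2.2
    rw [hx] at hne
    have hs : i.1.1 ∈ (l x).support := by
      rw [Finsupp.mem_support_iff]
      intro h0
      apply hne
      rw [h0, zero_smul]
    refine ⟨i.1.1, hs, hne, ?_⟩
    ext1
    exact Prod.ext rfl hi.2.2.symm
  · intro p hp _
    have h2 := (Finsupp.mem_supported ℚ _).1 (hl1 x) hp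
    have hx : ∀ h, (⟨(p.sum, x.1.2), h⟩ : ↥(XF W)) = x := by
      intro h
      ext1
      exact Prod.ext h2.2 rfl
    simp only
    rw [hx]

/-- **the dimension of the space of relations** -/
theorem rank_rel {W : ℕ} (P : (↥(IF W) → ℚ) →ₗ[ℚ] (↥(IF W) → ℚ)) (hP : Function.Injective P) :
    Module.finrank ℚ (LinearMap.ker ((ev W).comp P)) +
      ∑ n ∈ range (W + 1), 2 ^ (W - n) * Module.finrank ℚ (WS n) =
    ∑ n ∈ range (W + 1), 2 ^ (W - n) * na n := by
  classical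
  have h1 : Function.Surjective ((ev W).comp P) := by
    rw [LinearMap.coe_comp]
    exact (ev_surj W).comp (LinearMap.surjective_of_injective hP)
  have h2 := LinearMap.finrank_range_add_finrank_ker ((ev W).comp P)
  rw [LinearMap.range_eq_top.2 h1, finrank_top, Module.finrank_pi_fintype,
    Module.finrank_fintype_fun_eq_card, Fintype.card_coe, card_IF] at h2
  rw [← h2, ← sum_XF W fun n => Module.finrank ℚ (WS n), add_comm]
  congr 1
  rw [← sum_coe_sort (XF W)]

end Pool.Agent.X90.DE
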